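import Pool.Agent.H84.LSB.Targets

/-!
MP_ee74d2_an, group HL: partition of unity in the first frequency (row HPU).
-/

set_option autoImplicit false

namespace Pool.Agent.H83.HLM

open Pool.Agent.H84.LSB

/-- HPU -/
theorem pf_HPU : T_HPU := by
  let f : ContDiffBump (0 : ℝ) := ⟨1, 2, by norm_num, by norm_num⟩
  have f1 : ∀ x : ℝ, |x| ≤ 1 → f x = 1 := fun x hx =>
    f.one_of_mem_closedBall (by simpa [Real.norm_eq_abs] using hx)
  have f0 : ∀ x : ℝ, 2 ≤ |x| → f x = 0 := fun x hx =>
    f.zero_of_le_dist (by simpa [Real.norm_eq_abs] using hx)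
  have fn : ∀ x : ℝ, f (-x) = f x := fun x => f.neg x
  have fs : ContDiff ℝ (⊤ : ℕ∞) (fun x : ℝ => f x) := f.contDiff
  let g : ℝ → ℝ := fun x => Real.smoothTransition (4 * x) * (f x - f (2 * x))
  have d0 : ∀ x : ℝ, |x| ≤ 1 / 2 → f x - f (2 * x) = 0 := by
    intro x hx
    have h2 : |2 * x| ≤ 1 := by
      rw [abs_mul, abs_of_pos (by norm_num : (0 : ℝ) < 2)]
      linarith
    rw [f1 x (by linarith), f1 (2 * x) h2, sub_self]
  have gs : ContDiff ℝ (⊤ : ℕ∞) g :=
    (Real.smoothTransition.contDiff.comp (contDiff_const.mul contDiff_id)).mul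
      (fs.sub (fs.comp (contDiff_const.mul contDiff_id)))
  have gg : ∀ y : ℝ, g y + g (-y) = f y - f (2 * y) := by
    intro y
    show Real.smoothTransition (4 * y) * (f y - f (2 * y)) +
      Real.smoothTransition (4 * -y) * (f (-y) - f (2 * -y)) = f y - f (2 * y)
    rcases le_or_gt (1 / 4) y with h | h
    · rw [Real.smoothTransition.one_of_one_le (by linarith),
        Real.smoothTransition.zero_of_nonpos (by linarith)]
      ring
    · rcases le_or_gt y (-(1 / 4)) with h' | h'
      · rw [Real.smoothTransition.zero_of_nonpos (show 4 * y ≤ 0 by linarith),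
          Real.smoothTransition.one_of_one_le (by linarith), fn y,
          show (2 : ℝ) * -y = -(2 * y) by ring, fn (2 * y)]
        ring
      · have e1 : f y - f (2 * y) = 0 := d0 y (abs_le.2 ⟨by linarith, by linarith⟩)
        have e2 : f (-y) - f (2 * -y) = 0 := d0 (-y) (abs_le.2 ⟨by linarith, by linarith⟩)
        rw [e1, e2]
        ring
  refine ⟨fun x => f x, g, fs, gs, ?_, ?_, ?_⟩
  · intro x hx
    by_contra h
    exact hx (f0 x (by linarith [not_le.1 h]))
  · intro x hx
    have hx' : Real.smoothTransition (4 * x) * (f x - f (2 * x)) ≠ 0 := hx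
    constructor
    · by_contra h
      rw [not_le] at h
      rcases le_or_gt x 0 with h0 | h0
      · exact hx' (by rw [Real.smoothTransition.zero_of_nonpos (by linarith), zero_mul])
      · exact hx' (by rw [d0 x (abs_le.2 ⟨by linarith, h.le⟩), mul_zero])
    · by_contra h
      rw [not_le] at h
      have a1 : |x| = x := abs_of_pos (by linarith)
      have a2 : |2 * x| = 2 * x := abs_of_pos (by linarith)
      have b1 : 2 ≤ |x| := by rw [a1]; exact h.le
      have b2 : 2 ≤ |2 * x| := by rw [a2]; linarith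
      exact hx' (by rw [f0 x b1, f0 (2 * x) b2, sub_self, mul_zero])
  · intro J x hx
    induction J with
    | zero => simpa using f1 x hx
    | succ J ih =>
      rw [Finset.sum_range_succ, gg]
      have e : (2 : ℝ) ^ (J + 1) * x = 2 * (2 ^ J * x) := by rw [pow_succ]; ring
      show f (2 ^ (J + 1) * x) + _ = 1
      rw [e]
      have ih' : f (2 ^ J * x) + ∑ j ∈ Finset.range J, (g (2 ^ j * x) + g (-(2 ^ j * x))) = 1 := ih
      linarith

end Pool.Agent.H83.HLM
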